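import Pool.Agent.H631.DB.Main

/-!
# Consistently `ℵ₁ < 𝔟 < 𝔟_J < 𝔡_J < 𝔡 < cov(N)` for some ideal `J`

The model is obtained in two steps, each of which is a theorem of ZFC about ccc forcing.

Step 1 (parts (A), (C)). A ccc poset `P` forces the combinatorial sentence `Phi1For T D N Ω r`.
`P` is a finite support iteration along the product of four regular cardinals
`Ω 0, Ω 1, Ω 2, Ω 3`; at the coordinate `x` a function is added which dominates the functions
with names below `x`; in addition, for each `t` and `a ∈ Ω t`, a Cohen function `c t a` is added,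
generic over the functions with names below `a` in the direction `t`. The sentence implies that for
some ideal `J`, `#T < 𝔟 ≤ #(Ω 0) < 𝔟_J ≤ #(Ω 1) < 𝔡_J ≤ #(Ω 2) < 𝔡 ≤ #D`. The ideal is the sum of
two ideals `J_1, J_2` on the even and on the odd numbers, where `J_t` is generated by the finite
sets and the sets `{n | c t a n < f n}`, for `f` with a name below `a` in the direction `t`.

Step 2 (parts (D), (E)). Let `J` be an ideal and let `T, K, A, B, D` be sets with `T` uncountable and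
`#T < 𝔟 ≤ #K < 𝔟_J ≤ #A < 𝔡_J ≤ #B < 𝔡 ≤ #D`. Then a ccc forcing (the random forcing on
`M → [0, 1]`, with `M` large) forces the sentence `Phi2For J T K A B D`, which implies for the ideal
`J'` generated by `J` that `ℵ₁ < 𝔟 < 𝔟_J' < 𝔡_J' < 𝔡 < cov(N)`.

Step 1 gives an extension in which the hypothesis of Step 2 is true; Step 2, applied in this
extension, gives the model which is required. The sentences of the forcing language are the literal
translations of `Phi1For` and `Phi2For`, part (B) checks them over the trivial forcing.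
-/

set_option autoImplicit false

namespace Pool.Agent.Results.MP_07d10b_lc.BelowCovN

open Cardinal Pool.Agent.H631.DB

/-- (A) For every set `R` there are an uncountable set `T` with an injection from `R` to `T`, sets
`D, N, Ω 0, Ω 1, Ω 2, Ω 3`, relations `r`, and a nonempty ccc notion of forcing, all of whose
conditions force that `T` is uncountable and the sentence `Phi1For T D N Ω r`.
(B) The sentences of the forcing language have their plain meaning over the trivial forcing.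
(C) `Phi1For T D N Ω r` implies that there is an ideal `J` with
`#T < 𝔟 ≤ #(Ω 0) < 𝔟_J ≤ #(Ω 1) < 𝔡_J ≤ #(Ω 2) < 𝔡 ≤ #D`.
(D) For every ideal `J` and all sets `T, K, A, B, D` with `T` uncountable and
`#T < 𝔟 ≤ #K < 𝔟_J ≤ #A < 𝔡_J ≤ #B < 𝔡 ≤ #D` there is a nonempty ccc notion of forcing, all of
whose conditions force that `T` is uncountable and the sentence `Phi2For J T K A B D`.
(E) If `J` is a base of an ideal, `T` is uncountable, and `Phi2For J T K A B D`, then the ideal `J'`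
generated by `J` satisfies `ℵ₁ < 𝔟 < 𝔟_J' < 𝔡_J' < 𝔡 < cov(N)`. -/
theorem result :
    (∀ R : Type, ∃ (T D N : Type) (Ω : Fin 4 → Type) (r : ∀ t, N → Ω t → Prop)
      (P : Type) (_ : Preorder P), Nonempty (R ↪ T) ∧ Uncountable T ∧ Nonempty P ∧
      (∀ A : Set P, (∀ p ∈ A, ∀ q ∈ A, p ≠ q → ¬ ∃ r, r ≤ p ∧ r ≤ q) → A.Countable) ∧
      ∀ p : P, p ∈ UncN P T ∧ p ∈ Phi1Holds P T D N Ω r) ∧
    ((∀ (T : Type) [Nonempty T] (p : Unit), p ∈ UncN Unit T ↔ Uncountable T) ∧
      (∀ (T D N : Type) (Ω : Fin 4 → Type) (r : ∀ t, N → Ω t → Prop) (p : Unit),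
        p ∈ Phi1Holds Unit T D N Ω r ↔ Phi1For T D N Ω r) ∧
      (∀ (J : Set (Set ℕ)) (T K A B D : Type) (p : Unit),
        p ∈ Phi2Holds Unit J T K A B D ↔ Phi2For J T K A B D)) ∧
    (∀ (T D N : Type) (Ω : Fin 4 → Type) (r : ∀ t, N → Ω t → Prop), Phi1For T D N Ω r →
      ∃ J, IsIdeal J ∧ #T < bnum FinI ∧ bnum FinI ≤ #(Ω 0) ∧ #(Ω 0) < bnum J ∧
        bnum J ≤ #(Ω 1) ∧ #(Ω 1) < dnum J ∧ dnum J ≤ #(Ω 2) ∧ #(Ω 2) < dnum FinI ∧
        dnum FinI ≤ #D) ∧
    (∀ (J : Set (Set ℕ)) (T K A B D : Type), Uncountable T →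
      (IsIdeal J ∧ #T < bnum FinI ∧ bnum FinI ≤ #K ∧ #K < bnum J ∧ bnum J ≤ #A ∧ #A < dnum J ∧
        dnum J ≤ #B ∧ #B < dnum FinI ∧ dnum FinI ≤ #D) →
      ∃ (P : Type) (_ : Preorder P), Nonempty P ∧
        (∀ A : Set P, (∀ p ∈ A, ∀ q ∈ A, p ≠ q → ¬ ∃ r, r ≤ p ∧ r ≤ q) → A.Countable) ∧
        ∀ p : P, p ∈ UncN P T ∧ p ∈ Phi2Holds P J T K A B D) ∧
    (∀ (J : Set (Set ℕ)) (T K A B D : Type), IsBase J → Uncountable T →
      Phi2For J T K A B D → ∃ J' : Set (Set ℕ), J' = gen J ∧ IsIdeal J' ∧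
        ℵ₁ < bnum FinI ∧ bnum FinI < bnum J' ∧ bnum J' < dnum J' ∧ dnum J' < dnum FinI ∧
        dnum FinI < covN) := by
  refine ⟨fun R => ?_, ⟨PUNC.th_UNC.2, PUNIT1.th_UNIT1, PUNIT2.th_UNIT2⟩,
    fun T D N Ω r h => sep_of_phi1 h, fun J T K A B D hT h => ?_, fun J T K A B D hJ hT h => ?_⟩
  · obtain ⟨T, D, N, Ω, r, P, i, h1, h2, h3, h4, h5⟩ := force R
    exact ⟨T, D, N, Ω, r, P, i, h1, h2, h3, h4, fun p => ⟨PUNC.th_UNC.1 P h4 T h2 p, h5 p⟩⟩
  · obtain ⟨P, i, h1, h2, h3⟩ := random h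
    exact ⟨P, i, h1, h2, fun p => ⟨PUNC.th_UNC.1 P h2 T hT p, h3 p⟩⟩
  · obtain ⟨⟨hG, h1, h2, h3, h4, h5, h6, h7, h8⟩, h9⟩ := values hJ h
    have hT1 : ℵ₁ ≤ #T := by
      rw [← Cardinal.succ_aleph0]
      exact Order.succ_le_of_lt (Cardinal.aleph0_lt_mk_iff.2 hT)
    exact ⟨gen J, rfl, hG, hT1.trans_lt h1, h2.trans_lt h3, h4.trans_lt h5, h6.trans_lt h7,
      h8.trans_lt h9⟩

end Pool.Agent.Results.MP_07d10b_lc.BelowCovN
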